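import Mathlib
import Pool.Agent.Hhelper57.UDIso

set_option autoImplicit false

namespace Pool.Agent.Results.MP_113321_co.RigidEightNine

/-- Every map from eight-dimensional to nine-dimensional Euclidean space which sends points at
distance 1 to points at distance 1 preserves all distances. -/
theorem result :
    ∀ f : EuclideanSpace ℝ (Fin 8) → EuclideanSpace ℝ (Fin 9),
      (∀ x y : EuclideanSpace ℝ (Fin 8), dist x y = 1 → dist (f x) (f y) = 1) →
      ∀ x y : EuclideanSpace ℝ (Fin 8), dist (f x) (f y) = dist x y := by
  intro f hf x y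
  rw [dist_eq_norm, dist_eq_norm]
  refine Pool.Agent.Hhelper57.UD.isometry_of_pres (t := 1) one_pos ?_ x y
  intro p q hpq
  rw [← dist_eq_norm] at hpq ⊢
  exact hf p q hpq

end Pool.Agent.Results.MP_113321_co.RigidEightNine
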